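import Mathlib
import Pool.Agent.H770R2.Kad.HProps

/-! Direct sums of representations. -/

open scoped ComplexOrder InnerProductSpace

noncomputable section

namespace H770R2.Kad

open H759R2.Kad

universe u v

namespace DSaux

open scoped ENNReal

variable {I : Type v} {K : I → Type v} [∀ i, NormedAddCommGroup (K i)]
  [∀ i, InnerProductSpace ℂ (K i)]

theorem sum_le (T : ∀ i, K i →L[ℂ] K i) {r : ℝ} (hr0 : 0 ≤ r) (hr : ∀ i, ‖T i‖ ≤ r) (f : lp K 2)
    (s : Finset I) :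
    ∑ i ∈ s, ‖T i (f i)‖ ^ (2 : ℝ≥0∞).toReal ≤ (r * ‖f‖) ^ (2 : ℝ≥0∞).toReal := by
  have h2 : 0 < (2 : ℝ≥0∞).toReal := by norm_num
  have h1 := lp.sum_rpow_le_norm_rpow h2 f s
  calc ∑ i ∈ s, ‖T i (f i)‖ ^ (2 : ℝ≥0∞).toReal
      ≤ ∑ i ∈ s, r ^ (2 : ℝ≥0∞).toReal * ‖f i‖ ^ (2 : ℝ≥0∞).toReal := by
        apply Finset.sum_le_sum
        intro i _
        rw [← Real.mul_rpow hr0 (norm_nonneg _)]
        apply Real.rpow_le_rpow (norm_nonneg _) _ h2.le
        exact ((T i).le_opNorm _).trans (mul_le_mul_of_nonneg_right (hr i) (norm_nonneg _))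
    _ = r ^ (2 : ℝ≥0∞).toReal * ∑ i ∈ s, ‖f i‖ ^ (2 : ℝ≥0∞).toReal := by rw [Finset.mul_sum]
    _ ≤ r ^ (2 : ℝ≥0∞).toReal * ‖f‖ ^ (2 : ℝ≥0∞).toReal :=
        mul_le_mul_of_nonneg_left h1 (Real.rpow_nonneg hr0 _)
    _ = (r * ‖f‖) ^ (2 : ℝ≥0∞).toReal := by rw [Real.mul_rpow hr0 (norm_nonneg _)]

/-- diagonal operator, as a linear map -/
def dgL (T : ∀ i, K i →L[ℂ] K i) {r : ℝ} (hr0 : 0 ≤ r) (hr : ∀ i, ‖T i‖ ≤ r) :
    lp K 2 →ₗ[ℂ] lp K 2 where
  toFun f := ⟨fun i => T i (f i), memℓp_gen' (sum_le T hr0 hr f)⟩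
  map_add' f g := by
    apply lp.ext
    funext i
    show T i ((f + g) i) = T i (f i) + T i (g i)
    rw [← map_add]; rfl
  map_smul' c f := by
    apply lp.ext
    funext i
    show T i ((c • f) i) = c • T i (f i)
    rw [← map_smul]; rfl

theorem dgL_apply (T : ∀ i, K i →L[ℂ] K i) {r : ℝ} (hr0 : 0 ≤ r) (hr : ∀ i, ‖T i‖ ≤ r)
    (f : lp K 2) (i : I) : dgL T hr0 hr f i = T i (f i) := rfl

/-- diagonal operator -/
def dgC (T : ∀ i, K i →L[ℂ] K i) {r : ℝ} (hr0 : 0 ≤ r) (hr : ∀ i, ‖T i‖ ≤ r) :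
    lp K 2 →L[ℂ] lp K 2 :=
  (dgL T hr0 hr).mkContinuous r fun f => by
    have h2 : 0 < (2 : ℝ≥0∞).toReal := by norm_num
    apply lp.norm_le_of_forall_sum_le h2 (mul_nonneg hr0 (norm_nonneg _))
    exact sum_le T hr0 hr f

theorem dgC_apply (T : ∀ i, K i →L[ℂ] K i) {r : ℝ} (hr0 : 0 ≤ r) (hr : ∀ i, ‖T i‖ ≤ r)
    (f : lp K 2) (i : I) : dgC T hr0 hr f i = T i (f i) := rfl

end DSaux

open DSaux in
theorem prove_dsum : H_dsum.{u, v} := by
  classical
  intro A _ I K _ _ _ σ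
  have hn : ∀ (a : A) (i : I), ‖σ i a‖ ≤ ‖a‖ := fun a i =>
    NonUnitalStarAlgHom.norm_apply_le (σ i) a
  let π : A →⋆ₐ[ℂ] (lp K 2 →L[ℂ] lp K 2) :=
    { toFun := fun a => dgC (fun i => σ i a) (norm_nonneg a) (hn a)
      map_one' := by
        ext f i
        rw [dgC_apply, map_one]
        rfl
      map_mul' := fun a b => by
        ext f i
        rw [dgC_apply, map_mul]
        rfl
      map_zero' := by
        ext f i
        rw [dgC_apply, map_zero]
        rfl
      map_add' := fun a b => by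
        ext f i
        rw [dgC_apply, map_add]
        rfl
      commutes' := fun c => by
        ext f i
        rw [dgC_apply, Algebra.algebraMap_eq_smul_one, map_smul, map_one,
          Algebra.algebraMap_eq_smul_one]
        rfl
      map_star' := fun a => by
        rw [ContinuousLinearMap.star_eq_adjoint, ContinuousLinearMap.eq_adjoint_iff]
        intro f g
        rw [lp.inner_eq_tsum, lp.inner_eq_tsum]
        apply tsum_congr
        intro i
        rw [dgC_apply, dgC_apply, map_star, ContinuousLinearMap.star_eq_adjoint,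
          ContinuousLinearMap.adjoint_inner_left] }
  refine ⟨lp K 2, inferInstance, inferInstance, inferInstance, π,
    fun i => ⟨lp.lsingle 2 i, fun x => lp.norm_single (by norm_num) i x⟩, ?_⟩
  intro i a x
  apply lp.ext
  funext j
  show σ j a (lp.single 2 i x j) = lp.single 2 i (σ i a x) j
  by_cases hij : j = i
  · subst hij
    rw [lp.single_apply_self, lp.single_apply_self]
  · rw [lp.single_apply_ne 2 i x hij, lp.single_apply_ne 2 i (σ i a x) hij, map_zero]

end H770R2.Kad
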