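import Mathlib
import Pool.Agent.H770R2.Kad.HProps

/-! Ultrapowers of Hilbert spaces exist. -/

open scoped ComplexOrder InnerProductSpace

noncomputable section

namespace H770R2.Kad

open H759R2.Kad

universe u v

namespace UPaux

open Filter

section lim

variable {I : Type v} (U : Ultrafilter I)

theorem lim_exists {f : I → ℂ} (hf : ∃ r : ℝ, ∀ i, ‖f i‖ ≤ r) : ∃ a, Tendsto f U (nhds a) := by
  obtain ⟨r, hr⟩ := hf
  have hc : IsCompact (Metric.closedBall (0 : ℂ) r) := isCompact_closedBall 0 r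
  have h1 : ((U.map f : Ultrafilter ℂ) : Filter ℂ) ≤ Filter.principal (Metric.closedBall (0 : ℂ) r) := by
    rw [Filter.le_principal_iff]
    show f ⁻¹' (Metric.closedBall (0 : ℂ) r) ∈ (U : Filter I)
    filter_upwards with i
    simpa using hr i
  obtain ⟨a, -, ha⟩ := hc.ultrafilter_le_nhds _ h1
  exact ⟨a, ha⟩

/-- the limit along the ultrafilter -/
def ul (f : I → ℂ) : ℂ := limUnder (U : Filter I) f

theorem ul_tendsto {f : I → ℂ} (hf : ∃ r : ℝ, ∀ i, ‖f i‖ ≤ r) :
    Tendsto f U (nhds (ul U f)) := tendsto_nhds_limUnder (lim_exists U hf)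

end lim

section pre

variable {I : Type v} (U : Ultrafilter I) (H : Type v) [NormedAddCommGroup H]
  [InnerProductSpace ℂ H]

/-- bounded families -/
def PreS (I : Type v) (H : Type v) [NormedAddCommGroup H] [InnerProductSpace ℂ H] :
    Submodule ℂ (I → H) where
  carrier := {x | Bd x}
  add_mem' := by
    rintro x y ⟨r, hr⟩ ⟨s, hs⟩
    exact ⟨r + s, fun i => (norm_add_le _ _).trans (add_le_add (hr i) (hs i))⟩
  zero_mem' := ⟨0, fun i => by simp⟩
  smul_mem' := by
    rintro c x ⟨r, hr⟩
    refine ⟨‖c‖ * r, fun i => ?_⟩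
    show ‖c • x i‖ ≤ _
    rw [norm_smul]
    exact mul_le_mul_of_nonneg_left (hr i) (norm_nonneg c)

set_option linter.unusedVariables false in
/-- bounded families, with the seminorm given by the ultrafilter -/
def Pre (U : Ultrafilter I) (H : Type v) [NormedAddCommGroup H] [InnerProductSpace ℂ H] : Type v :=
  PreS I H

instance : AddCommGroup (Pre U H) := inferInstanceAs (AddCommGroup (PreS I H))
instance : Module ℂ (Pre U H) := inferInstanceAs (Module ℂ (PreS I H))

variable {U H}

/-- the family -/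
def fam (x : Pre U H) : I → H := Subtype.val (p := fun y => y ∈ PreS I H) x

/-- the class of a bounded family -/
def mk (x : I → H) (h : Bd x) : Pre U H := Subtype.mk (p := fun y => y ∈ PreS I H) x h

theorem fam_mk (x : I → H) (h : Bd x) : fam (mk x h : Pre U H) = x := rfl

theorem fam_add (x y : Pre U H) : fam (x + y) = fun i => fam x i + fam y i := rfl

theorem fam_smul (c : ℂ) (x : Pre U H) : fam (c • x) = fun i => c • fam x i := rfl

theorem fam_bd (x : Pre U H) : Bd (fam x) := x.2

theorem fam_ext {x y : Pre U H} (h : fam x = fam y) : x = y := Subtype.ext h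

theorem inn_bd (x y : Pre U H) : ∃ r : ℝ, ∀ i, ‖⟪fam x i, fam y i⟫_ℂ‖ ≤ r := by
  obtain ⟨r, hr⟩ := fam_bd x
  obtain ⟨s, hs⟩ := fam_bd y
  refine ⟨r * s, fun i => (norm_inner_le_norm _ _).trans ?_⟩
  exact mul_le_mul (hr i) (hs i) (norm_nonneg _) ((norm_nonneg _).trans (hr i))

variable (U H)

/-- the semi-inner product -/
abbrev core : PreInnerProductSpace.Core ℂ (Pre U H) where
  inner x y := ul U (fun i => ⟪fam x i, fam y i⟫_ℂ)
  conj_inner_symm x y := by
    have h1 := ul_tendsto U (inn_bd x y)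
    have h2 := ul_tendsto U (inn_bd y x)
    have h3 := ((Complex.continuous_conj.tendsto _).comp h2)
    have h4 : ((starRingEnd ℂ) ∘ fun i => ⟪fam y i, fam x i⟫_ℂ) = fun i => ⟪fam x i, fam y i⟫_ℂ := by
      funext i
      exact inner_conj_symm _ _
    rw [h4] at h3
    exact tendsto_nhds_unique h3 h1
  re_inner_nonneg x := by
    have h1 := (Complex.continuous_re.tendsto _).comp (ul_tendsto U (inn_bd x x))
    apply ge_of_tendsto h1
    filter_upwards with i
    exact inner_self_nonneg (𝕜 := ℂ)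
  add_left x y z := by
    have h1 := ul_tendsto U (inn_bd (x + y) z)
    have h2 := (ul_tendsto U (inn_bd x z)).add (ul_tendsto U (inn_bd y z))
    have h3 : (fun i => ⟪fam (x + y) i, fam z i⟫_ℂ)
        = fun i => ⟪fam x i, fam z i⟫_ℂ + ⟪fam y i, fam z i⟫_ℂ := by
      funext i
      rw [fam_add, inner_add_left]
    rw [h3] at h1
    show ul U (fun i => ⟪fam (x + y) i, fam z i⟫_ℂ) = _
    rw [h3]
    exact tendsto_nhds_unique h1 h2
  smul_left x y c := by
    have h1 := ul_tendsto U (inn_bd (c • x) y)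
    have h2 := (ul_tendsto U (inn_bd x y)).const_mul ((starRingEnd ℂ) c)
    have h3 : (fun i => ⟪fam (c • x) i, fam y i⟫_ℂ)
        = fun i => (starRingEnd ℂ) c * ⟪fam x i, fam y i⟫_ℂ := by
      funext i
      rw [fam_smul, inner_smul_left]
    rw [h3] at h1
    show ul U (fun i => ⟪fam (c • x) i, fam y i⟫_ℂ) = _
    rw [h3]
    exact tendsto_nhds_unique h1 h2

instance : SeminormedAddCommGroup (Pre U H) :=
  InnerProductSpace.Core.toSeminormedAddCommGroup (c := core U H)
instance : InnerProductSpace ℂ (Pre U H) := InnerProductSpace.ofCore (core U H)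

variable {U H}

theorem inn_tendsto (x y : Pre U H) :
    Tendsto (fun i => ⟪fam x i, fam y i⟫_ℂ) U (nhds ⟪x, y⟫_ℂ) := ul_tendsto U (inn_bd x y)

theorem nsq_tendsto (x : Pre U H) : Tendsto (fun i => ‖fam x i‖ ^ 2) U (nhds (‖x‖ ^ 2)) := by
  have h2 := (Complex.continuous_re.tendsto _).comp (inn_tendsto x x)
  have h3 : (Complex.re ∘ fun i => ⟪fam x i, fam x i⟫_ℂ) = fun i => ‖fam x i‖ ^ 2 := by
    funext i
    simp only [Function.comp]
    rw [inner_self_eq_norm_sq_to_K]
    norm_cast
  have h4 : (⟪x, x⟫_ℂ).re = ‖x‖ ^ 2 := by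
    rw [inner_self_eq_norm_sq_to_K]
    norm_cast
  rwa [h3, h4] at h2

theorem bd_act {T : I → (H →L[ℂ] H)} {x : I → H} (hT : Bd T) (hx : Bd x) :
    Bd (fun i => T i (x i)) := by
  obtain ⟨r, hr⟩ := hT
  obtain ⟨s, hs⟩ := hx
  refine ⟨r * s, fun i => ?_⟩
  refine (ContinuousLinearMap.le_opNorm _ _).trans ?_
  exact mul_le_mul (hr i) (hs i) (norm_nonneg _) ((norm_nonneg _).trans (hr i))

/-- the linear map given by a bounded family of operators -/
def opL (T : I → (H →L[ℂ] H)) (hT : Bd T) : Pre U H →ₗ[ℂ] Pre U H where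
  toFun x := mk (fun i => T i (fam x i)) (bd_act hT (fam_bd x))
  map_add' x y := by
    apply fam_ext
    funext i
    show T i (fam (x + y) i) = T i (fam x i) + T i (fam y i)
    rw [fam_add, map_add]
  map_smul' c x := by
    apply fam_ext
    funext i
    show T i (fam (c • x) i) = c • T i (fam x i)
    rw [fam_smul, map_smul]

theorem fam_opL (T : I → (H →L[ℂ] H)) (hT : Bd T) (x : Pre U H) :
    fam (opL T hT x) = fun i => T i (fam x i) := rfl

theorem opL_norm (T : I → (H →L[ℂ] H)) (hT : Bd T) :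
    ∃ r : ℝ, ∀ x : Pre U H, ‖opL T hT x‖ ≤ r * ‖x‖ := by
  obtain ⟨r, hr⟩ := id hT
  refine ⟨|r|, fun x => ?_⟩
  have h1 := nsq_tendsto (opL T hT x)
  have h2 := (nsq_tendsto x).const_mul (|r| ^ 2)
  have h3 : ‖opL T hT x‖ ^ 2 ≤ |r| ^ 2 * ‖x‖ ^ 2 := by
    apply le_of_tendsto_of_tendsto h1 h2
    filter_upwards with i
    rw [← mul_pow, fam_opL]
    have h4 : ‖T i (fam x i)‖ ≤ |r| * ‖fam x i‖ :=
      ((T i).le_opNorm _).trans (mul_le_mul_of_nonneg_right ((hr i).trans (le_abs_self r))
        (norm_nonneg _))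
    exact pow_le_pow_left₀ (norm_nonneg _) h4 2
  rw [← mul_pow] at h3
  exact le_of_sq_le_sq h3 (by positivity)

/-- the bounded operator on bounded families -/
def opC (T : I → (H →L[ℂ] H)) (hT : Bd T) : Pre U H →L[ℂ] Pre U H :=
  (opL T hT).mkContinuous (opL_norm (U := U) T hT).choose (opL_norm (U := U) T hT).choose_spec

end pre

end UPaux

open UPaux UniformSpace in
theorem prove_up : H_up.{v} := by
  classical
  intro I U H _ _ _
  refine ⟨Completion (Pre U H), inferInstance, inferInstance, inferInstance,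
    fun x => if h : Bd x then ((mk x h : Pre U H) : Completion (Pre U H)) else 0,
    fun T => if h : Bd T then (opC (U := U) T h).completion else 0, ?_, ?_, ?_⟩
  · intro x y hx hy
    simp only [hx, hy, dif_pos]
    rw [Completion.inner_coe]
    exact inn_tendsto (mk x hx : Pre U H) (mk y hy)
  · have h1 : (fun x => if h : Bd x then ((mk x h : Pre U H) : Completion (Pre U H)) else 0) ''
        {x : I → H | Bd x} = Set.range ((↑) : Pre U H → Completion (Pre U H)) := by
      ext z
      constructor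
      · rintro ⟨x, hx, rfl⟩
        have hx' : Bd x := hx
        exact ⟨mk x hx', by simp only [hx', dif_pos]⟩
      · rintro ⟨x, rfl⟩
        refine ⟨fam x, fam_bd x, ?_⟩
        simp only [fam_bd x, dif_pos]
        rfl
    rw [h1]
    exact Completion.denseRange_coe
  · intro T x hT hx
    have hTx : Bd fun i => T i (x i) := UPaux.bd_act hT hx
    simp only [hT, hx, hTx, dif_pos]
    rw [ContinuousLinearMap.completion_apply_coe]
    rfl

end H770R2.Kad
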