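import Mathlib
import Pool.Agent.H770R2.Kad.HProps

/-! Algebra of ultrapowers of Hilbert spaces. -/

open scoped ComplexOrder InnerProductSpace

noncomputable section

namespace H770R2.Kad

open H759R2.Kad

universe u v

namespace UPAaux

open Filter

section bd

variable {I : Type v} {H : Type v} [NormedAddCommGroup H] [InnerProductSpace ℂ H] [CompleteSpace H]

theorem bd_lin {E : Type*} [NormedAddCommGroup E] [NormedSpace ℂ E] {x y : I → E} (c : ℂ)
    (hx : Bd x) (hy : Bd y) : Bd (fun i => c • x i + y i) := by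
  obtain ⟨r, hr⟩ := hx
  obtain ⟨s, hs⟩ := hy
  refine ⟨‖c‖ * r + s, fun i => ?_⟩
  refine (norm_add_le _ _).trans ?_
  rw [norm_smul]
  have := mul_le_mul_of_nonneg_left (hr i) (norm_nonneg c)
  linarith [hs i]

theorem bd_act {T : I → (H →L[ℂ] H)} {x : I → H} (hT : Bd T) (hx : Bd x) :
    Bd (fun i => T i (x i)) := by
  obtain ⟨r, hr⟩ := hT
  obtain ⟨s, hs⟩ := hx
  refine ⟨r * s, fun i => ?_⟩
  refine (ContinuousLinearMap.le_opNorm _ _).trans ?_
  exact mul_le_mul (hr i) (hs i) (norm_nonneg _) ((norm_nonneg _).trans (hr i))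

theorem bd_mul {S T : I → (H →L[ℂ] H)} (hS : Bd S) (hT : Bd T) :
    Bd (fun i => S i * T i) := by
  obtain ⟨r, hr⟩ := hS
  obtain ⟨s, hs⟩ := hT
  refine ⟨r * s, fun i => ?_⟩
  refine (norm_mul_le _ _).trans ?_
  exact mul_le_mul (hr i) (hs i) (norm_nonneg _) ((norm_nonneg _).trans (hr i))

theorem bd_star {S : I → (H →L[ℂ] H)} (hS : Bd S) : Bd (fun i => star (S i)) := by
  obtain ⟨r, hr⟩ := hS
  exact ⟨r, fun i => by rw [norm_star]; exact hr i⟩

theorem bd_one : Bd (fun _ : I => (1 : H →L[ℂ] H)) := ⟨‖(1 : H →L[ℂ] H)‖, fun _ => le_rfl⟩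

end bd

section up

variable {I : Type v} {U : Ultrafilter I}
    {H : Type v} [NormedAddCommGroup H] [InnerProductSpace ℂ H] [CompleteSpace H]
    {K : Type v} [NormedAddCommGroup K] [InnerProductSpace ℂ K] [CompleteSpace K]
    {Q : (I → H) → K} {O : (I → (H →L[ℂ] H)) → (K →L[ℂ] K)}

theorem ext_inn (h : IsUP U Q O) {a b : K} (hab : ∀ u, Bd u → ⟪a, Q u⟫_ℂ = ⟪b, Q u⟫_ℂ) :
    a = b := by
  apply ext_inner_right ℂ
  intro w
  have h1 : (fun w : K => ⟪a, w⟫_ℂ) = fun w => ⟪b, w⟫_ℂ := by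
    apply Continuous.ext_on h.dense (by fun_prop) (by fun_prop)
    rintro _ ⟨u, hu, rfl⟩
    exact hab u hu
  exact congrFun h1 w

theorem ext_op (h : IsUP U Q O) {S T : K →L[ℂ] K} (hST : ∀ u, Bd u → S (Q u) = T (Q u)) :
    S = T := by
  have h1 : (fun w : K => S w) = fun w => T w := by
    apply Continuous.ext_on h.dense (by fun_prop) (by fun_prop)
    rintro _ ⟨u, hu, rfl⟩
    exact hST u hu
  ext w
  exact congrFun h1 w

theorem nsq (h : IsUP U Q O) {x : I → H} (hx : Bd x) :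
    Tendsto (fun i => ‖x i‖ ^ 2) U (nhds (‖Q x‖ ^ 2)) := by
  have h1 := h.inn x x hx hx
  have h2 := (Complex.continuous_re.tendsto _).comp h1
  have h3 : (Complex.re ∘ fun i => ⟪x i, x i⟫_ℂ) = fun i => ‖x i‖ ^ 2 := by
    funext i
    simp only [Function.comp]
    rw [inner_self_eq_norm_sq_to_K]
    norm_cast
  have h4 : (⟪Q x, Q x⟫_ℂ).re = ‖Q x‖ ^ 2 := by
    rw [inner_self_eq_norm_sq_to_K]
    norm_cast
  rwa [h3, h4] at h2

theorem q_lin (h : IsUP U Q O) {x y : I → H} (c : ℂ) (hx : Bd x) (hy : Bd y) :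
    Q (fun i => c • x i + y i) = c • Q x + Q y := by
  apply ext_inn h
  intro u hu
  have h1 := h.inn _ u (bd_lin c hx hy) hu
  have h2 := ((h.inn x u hx hu).const_mul ((starRingEnd ℂ) c)).add (h.inn y u hy hu)
  have h3 : (fun i => ⟪c • x i + y i, u i⟫_ℂ)
      = fun i => (starRingEnd ℂ) c * ⟪x i, u i⟫_ℂ + ⟪y i, u i⟫_ℂ := by
    funext i
    rw [inner_add_left, inner_smul_left]
  rw [h3] at h1
  rw [tendsto_nhds_unique h1 h2, inner_add_left, inner_smul_left]

theorem q_congr (h : IsUP U Q O) {x y : I → H} (hx : Bd x) (hy : Bd y)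
    (hxy : ∀ᶠ i in (U : Filter I), x i = y i) : Q x = Q y := by
  apply ext_inn h
  intro u hu
  have h1 := h.inn x u hx hu
  have h2 := h.inn y u hy hu
  have h3 : Tendsto (fun i => ⟪y i, u i⟫_ℂ) U (nhds ⟪Q x, Q u⟫_ℂ) := by
    refine h1.congr' ?_
    filter_upwards [hxy] with i hi
    rw [hi]
  exact tendsto_nhds_unique h3 h2

end up

end UPAaux

open UPAaux Filter in
theorem prove_upalg : H_upalg.{v} := by
  intro I U H _ _ _ K _ _ _ Q O h
  refine ⟨fun x y c hx hy => q_lin h c hx hy, ?_, ?_, ?_, ?_, ?_, ?_, ?_⟩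
  · intro S T c hS hT
    apply ext_op h
    intro u hu
    rw [h.act _ _ (bd_lin c hS hT) hu, ContinuousLinearMap.add_apply,
      ContinuousLinearMap.smul_apply, h.act _ _ hS hu, h.act _ _ hT hu,
      ← q_lin h c (bd_act hS hu) (bd_act hT hu)]
    rfl
  · intro S T hS hT
    apply ext_op h
    intro u hu
    rw [h.act _ _ (bd_mul hS hT) hu]
    show _ = O S (O T (Q u))
    rw [h.act _ _ hT hu, h.act _ _ hS (bd_act hT hu)]
    rfl
  · intro S hS
    apply ext_op h
    intro y hy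
    apply ext_inn h
    intro u hu
    rw [h.act _ _ (bd_star hS) hy, ContinuousLinearMap.star_eq_adjoint,
      ContinuousLinearMap.adjoint_inner_left, h.act _ _ hS hu]
    have h1 := h.inn _ u (bd_act (bd_star hS) hy) hu
    have h2 := h.inn y _ hy (bd_act hS hu)
    have h3 : (fun i => ⟪(star (S i)) (y i), u i⟫_ℂ) = fun i => ⟪y i, S i (u i)⟫_ℂ := by
      funext i
      rw [ContinuousLinearMap.star_eq_adjoint, ContinuousLinearMap.adjoint_inner_left]
    rw [h3] at h1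
    exact tendsto_nhds_unique h1 h2
  · apply ext_op h
    intro u hu
    rw [h.act _ _ bd_one hu]
    rfl
  · intro S T hS hT hST
    apply ext_op h
    intro u hu
    rw [h.act _ _ hS hu, h.act _ _ hT hu]
    apply q_congr h (bd_act hS hu) (bd_act hT hu)
    filter_upwards [hST] with i hi
    rw [hi]
  · intro S r hr hS hSr
    apply ContinuousLinearMap.opNorm_le_bound _ hr
    intro k
    have hcl : IsClosed {k : K | ‖O S k‖ ≤ r * ‖k‖} :=
      isClosed_le (by fun_prop) (by fun_prop)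
    have hsub : Q '' {x | Bd x} ⊆ {k : K | ‖O S k‖ ≤ r * ‖k‖} := by
      rintro _ ⟨u, hu, rfl⟩
      show ‖O S (Q u)‖ ≤ r * ‖Q u‖
      rw [h.act _ _ hS hu]
      have h1 := nsq h (bd_act hS hu)
      have h2 := (nsq h hu).const_mul (r ^ 2)
      have h3 : ‖Q (fun i => S i (u i))‖ ^ 2 ≤ r ^ 2 * ‖Q u‖ ^ 2 := by
        apply le_of_tendsto_of_tendsto h1 h2
        filter_upwards [hSr] with i hi
        rw [← mul_pow]
        have h4 : ‖S i (u i)‖ ≤ r * ‖u i‖ :=
          ((S i).le_opNorm _).trans (mul_le_mul_of_nonneg_right hi (norm_nonneg _))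
        exact pow_le_pow_left₀ (norm_nonneg _) h4 2
      rw [← mul_pow] at h3
      exact le_of_sq_le_sq h3 (by positivity)
    exact (h.dense.closure_eq ▸ closure_minimal hsub hcl : (Set.univ : Set K) ⊆ _) (Set.mem_univ k)
  · intro S r hS hSr
    by_contra hcon
    push Not at hcon
    have hr : 0 < r := lt_of_le_of_lt (norm_nonneg _) hcon
    obtain ⟨s, hs1, hs2⟩ := exists_between hcon
    have hs0 : 0 < s := lt_of_le_of_lt (norm_nonneg _) hs1
    have hx : ∀ i, ∃ x : H, ‖x‖ ≤ 1 ∧ (r ≤ ‖S i‖ → s ≤ ‖S i x‖) := by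
      intro i
      by_cases hi : r ≤ ‖S i‖
      · obtain ⟨x, hx1, hx2⟩ := (S i).exists_lt_apply_of_lt_opNorm (lt_of_lt_of_le hs2 hi)
        exact ⟨x, hx1.le, fun _ => hx2.le⟩
      · exact ⟨0, by simp, fun h => absurd h hi⟩
    choose x hx1 hx2 using hx
    have hbx : Bd x := ⟨1, hx1⟩
    have h1 := nsq h (bd_act hS hbx)
    have h2 := nsq h hbx
    have h3 : s ^ 2 ≤ ‖Q (fun i => S i (x i))‖ ^ 2 := by
      apply ge_of_tendsto h1
      filter_upwards [hSr] with i hi
      exact pow_le_pow_left₀ hs0.le (hx2 i hi) 2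
    have h4 : ‖Q x‖ ^ 2 ≤ 1 := by
      apply le_of_tendsto h2
      filter_upwards with i
      exact pow_le_one₀ (norm_nonneg _) (hx1 i)
    have h5 : s ≤ ‖Q (fun i => S i (x i))‖ := le_of_sq_le_sq h3 (norm_nonneg _)
    have h6 : ‖Q x‖ ≤ 1 := by
      by_contra h7
      push Not at h7
      nlinarith
    rw [← h.act _ _ hS hbx] at h5
    have h7 := (O S).le_opNorm (Q x)
    have h8 : ‖O S‖ * ‖Q x‖ ≤ ‖O S‖ * 1 := mul_le_mul_of_nonneg_left h6 (norm_nonneg _)
    linarith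

end H770R2.Kad
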